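import Pool.Agent.Helper33.QB.Defs
import Pool.Agent.Helper61.QB.Order

/-! # QB-F2: unions of decreasing sequences of raw conditions -/

set_option autoImplicit false

namespace Pool.Agent.Helper33.QB

open Set

universe v

variable {Ω : Type} {I : Type v} {α : Ordinal.{0}}

section F2

variable {p q r s : Cnd Ω I} {pn : ℕ → Cnd Ω I}

theorem Le.seq (hb : ∀ n, Basic α (pn n)) (hle : ∀ n, Le (pn (n + 1)) (pn n)) {m n : ℕ}
    (hmn : m ≤ n) : Le (pn n) (pn m) := by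
  induction n, hmn using Nat.le_induction with
  | base => exact Le.refl' (hb m).gr
  | succ n _ ih => exact Le.trans' (hb (n + 1)) (hb n) (hle n) ih

open Classical in
/-- the union of a sequence of raw conditions -/
noncomputable def h63Un (pn : ℕ → Cnd Ω I) : Cnd Ω I where
  Y := ⋃ n, (pn n).Y
  R := {K | ∃ n, K ∈ (pn n).R}
  S := ⋃ n, (pn n).S
  r := fun x => if h : ∃ n, x ∈ (pn n).Y then (pn h.choose).r x else 0
  h := fun i x => if h : ∃ n, i ∈ (pn n).S ∧ x ∈ (pn n).Y then (pn h.choose).h i x else x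

/-- paths stay inside the set which contains all edges -/
theorem h63_acts_mem {G : I → Ω → Ω → Prop} {A : Set Ω} (hG : ∀ i x y, G i x y → x ∈ A ∧ y ∈ A)
    {g : FreeGroup I} {x y : Ω} (h : Acts G g x y) : (x = y ∧ g = 1) ∨ (x ∈ A ∧ y ∈ A) := by
  induction h with
  | one x => exact Or.inl ⟨rfl, rfl⟩
  | fwd _ hG' ih =>
    rcases ih with ⟨rfl, _⟩ | ⟨hx, _⟩
    · exact Or.inr (hG _ _ _ hG')
    · exact Or.inr ⟨hx, (hG _ _ _ hG').2⟩
  | bwd _ hG' ih =>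
    rcases ih with ⟨rfl, _⟩ | ⟨hx, _⟩
    · exact Or.inr ⟨(hG _ _ _ hG').2, (hG _ _ _ hG').1⟩
    · exact Or.inr ⟨hx, (hG _ _ _ hG').1⟩

/-- transfer of paths which stay in the set `A` -/
theorem h63_transfer {G G' : I → Ω → Ω → Prop} {A : Set Ω}
    (hA : ∀ i x y, G i x y → (x ∈ A ↔ y ∈ A)) (hG : ∀ i x y, G i x y → x ∈ A → G' i x y)
    {g : FreeGroup I} {x y : Ω} (h : Acts G g x y) (hx : x ∈ A) : Acts G' g x y ∧ y ∈ A := by
  induction h with
  | one x => exact ⟨Acts.one x, hx⟩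
  | fwd _ h2 ih =>
    exact ⟨Acts.fwd (ih hx).1 (hG _ _ _ h2 (ih hx).2), (hA _ _ _ h2).1 (ih hx).2⟩
  | bwd _ h2 ih =>
    have hz := (hA _ _ _ h2).2 (ih hx).2
    exact ⟨Acts.bwd (ih hx).1 (hG _ _ _ h2 hz), hz⟩

section

variable (hb : ∀ n, Basic α (pn n)) (hle : ∀ n, Le (pn (n + 1)) (pn n))

include hb hle

theorem h63_r {n : ℕ} {x : Ω} (hx : x ∈ (pn n).Y) : (h63Un pn).r x = (pn n).r x := by
  have h : ∃ n, x ∈ (pn n).Y := ⟨n, hx⟩
  have e : (h63Un pn).r x = (pn h.choose).r x := dif_pos h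
  rw [e]
  rcases le_total n h.choose with h1 | h1
  · exact (Le.seq hb hle h1).cp.rk x hx
  · exact ((Le.seq hb hle h1).cp.rk x h.choose_spec).symm

theorem h63_h {n : ℕ} {i : I} {x : Ω} (hi : i ∈ (pn n).S) (hx : x ∈ (pn n).Y) :
    (h63Un pn).h i x = (pn n).h i x := by
  have h : ∃ n, i ∈ (pn n).S ∧ x ∈ (pn n).Y := ⟨n, hi, hx⟩
  have e : (h63Un pn).h i x = (pn h.choose).h i x := dif_pos h
  rw [e]
  rcases le_total n h.choose with h1 | h1
  · exact (Le.seq hb hle h1).h i hi x hx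
  · exact ((Le.seq hb hle h1).h i h.choose_spec.1 x h.choose_spec.2).symm

theorem h63_Y_mono {m n : ℕ} (h : m ≤ n) : (pn m).Y ⊆ (pn n).Y := (Le.seq hb hle h).cp.sub

theorem h63_S_mono {m n : ℕ} (h : m ≤ n) : (pn m).S ⊆ (pn n).S := (Le.seq hb hle h).S

theorem h63_R_mono {m n : ℕ} (h : m ≤ n) {K : Set Ω} (hK : K ∈ (pn m).R) : K ∈ (pn n).R :=
  ((Le.seq hb hle h).cp.ring K |>.1 hK).1

/-- a point of the union and a letter lie in a late condition -/
theorem h63_late (n : ℕ) {i : I} {x : Ω} (hi : i ∈ (h63Un pn).S) (hx : x ∈ (h63Un pn).Y) :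
    ∃ N, n ≤ N ∧ i ∈ (pn N).S ∧ x ∈ (pn N).Y := by
  obtain ⟨a, ha⟩ := mem_iUnion.1 hi
  obtain ⟨b, hb'⟩ := mem_iUnion.1 hx
  exact ⟨max n (max a b), le_max_left _ _,
    h63_S_mono hb hle ((le_max_left a b).trans (le_max_right _ _)) ha,
    h63_Y_mono hb hle ((le_max_right a b).trans (le_max_right _ _)) hb'⟩

theorem h63_lateX (n : ℕ) {x : Ω} (hx : x ∈ (h63Un pn).Y) :
    ∃ N, n ≤ N ∧ x ∈ (pn N).Y := by
  obtain ⟨b, hb'⟩ := mem_iUnion.1 hx
  exact ⟨max n b, le_max_left _ _, h63_Y_mono hb hle (le_max_right _ _) hb'⟩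

/-- the maps of the union do not enter the old part -/
theorem h63_out {n : ℕ} {i : I} {x : Ω} (hi : i ∈ (pn n).S) (hx : x ∈ (h63Un pn).Y)
    (hx' : x ∉ (pn n).Y) : (h63Un pn).h i x ∉ (pn n).Y := by
  obtain ⟨N, hN, hxN⟩ := h63_lateX hb hle n hx
  rw [h63_h hb hle (h63_S_mono hb hle hN hi) hxN]
  exact (Le.seq hb hle hN).out i hi x hxN hx'

theorem h63_maps {n : ℕ} {i : I} {x : Ω} (hi : i ∈ (pn n).S) (hx : x ∈ (pn n).Y) :
    (h63Un pn).h i x ∈ (pn n).Y := by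
  rw [h63_h hb hle hi hx]
  exact ((hb n).ce i hi).maps x hx

theorem h63_stay {n : ℕ} {i : I} {x : Ω} (hi : i ∈ (pn n).S) (hx : x ∈ (h63Un pn).Y) :
    x ∈ (pn n).Y ↔ (h63Un pn).h i x ∈ (pn n).Y :=
  ⟨fun h => h63_maps hb hle hi h, fun h => by
    by_contra hx'
    exact h63_out hb hle hi hx hx' h⟩

theorem h63_gr : GR (h63Un pn).Y (h63Un pn).R (h63Un pn).r where
  sub := by
    rintro K ⟨n, hK⟩ x hx
    exact mem_iUnion.2 ⟨n, (hb n).gr.sub K hK hx⟩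
  emp := ⟨0, (hb 0).gr.emp⟩
  un := by
    rintro K ⟨m, hK⟩ K' ⟨n, hK'⟩
    exact ⟨max m n, (hb _).gr.un _ (h63_R_mono hb hle (le_max_left _ _) hK) _
      (h63_R_mono hb hle (le_max_right _ _) hK')⟩
  df := by
    rintro K ⟨m, hK⟩ K' ⟨n, hK'⟩
    exact ⟨max m n, (hb _).gr.df _ (h63_R_mono hb hle (le_max_left _ _) hK) _
      (h63_R_mono hb hle (le_max_right _ _) hK')⟩
  cov := by
    intro x hx
    obtain ⟨n, hn⟩ := mem_iUnion.1 hx
    obtain ⟨K, hK, hxK⟩ := (hb n).gr.cov x hn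
    exact ⟨K, ⟨n, hK⟩, hxK⟩
  sep := by
    intro x hx y hy hxy
    obtain ⟨m, hm⟩ := mem_iUnion.1 hx
    obtain ⟨n, hn⟩ := mem_iUnion.1 hy
    obtain ⟨K, hK, hxK, hyK⟩ := (hb (max m n)).gr.sep x
      (h63_Y_mono hb hle (le_max_left _ _) hm) y (h63_Y_mono hb hle (le_max_right _ _) hn) hxy
    exact ⟨K, ⟨_, hK⟩, hxK, hyK⟩
  top := by
    rintro K ⟨n, hK⟩ hne
    obtain ⟨x, hx, h1, h2⟩ := (hb n).gr.top K hK hne
    have hr : ∀ y ∈ K, (h63Un pn).r y = (pn n).r y := fun y hy =>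
      h63_r hb hle ((hb n).gr.sub K hK hy)
    refine ⟨x, hx, fun y hy => ?_, ?_⟩
    · rw [hr y hy, hr x hx]; exact h1 y hy
    · refine h2.subset ?_
      rintro y ⟨hy, hy'⟩
      rw [hr y hy, hr x hx] at hy'
      exact ⟨hy, hy'⟩
  ex := by
    rintro K ⟨n, hK⟩ x hx β hβ
    have hr : ∀ y ∈ K, (h63Un pn).r y = (pn n).r y := fun y hy =>
      h63_r hb hle ((hb n).gr.sub K hK hy)
    rw [hr x hx] at hβ
    obtain ⟨y, hy, hne, hβy⟩ := (hb n).gr.ex K hK x hx β hβ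
    exact ⟨y, hy, hne, by rw [hr y hy]; exact hβy⟩

theorem h63_ce {i : I} (hi : i ∈ (h63Un pn).S) :
    CE (h63Un pn).Y (h63Un pn).R ((h63Un pn).h i) where
  maps := by
    intro x hx
    obtain ⟨N, _, hiN, hxN⟩ := h63_late hb hle 0 hi hx
    exact mem_iUnion.2 ⟨N, h63_maps hb hle hiN hxN⟩
  inj := by
    intro x hx y hy hxy
    obtain ⟨N, _, hiN, hxN⟩ := h63_late hb hle 0 hi hx
    obtain ⟨M, hNM, hiM, hyM⟩ := h63_late hb hle N hi hy
    have hxM := h63_Y_mono hb hle hNM hxN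
    rw [h63_h hb hle hiM hxM, h63_h hb hle hiM hyM] at hxy
    exact ((hb M).ce i hiM).inj hxM hyM hxy
  img := by
    rintro K ⟨n, hK⟩
    obtain ⟨a, ha⟩ := mem_iUnion.1 hi
    have hiN := h63_S_mono hb hle (le_max_right n a) ha
    have hKN := h63_R_mono hb hle (le_max_left n a) hK
    obtain ⟨K', hK', he⟩ := ((hb (max n a)).ce i hiN).img K hKN
    refine ⟨K', ⟨_, hK'⟩, ?_⟩
    have himg : (h63Un pn).h i '' K = (pn (max n a)).h i '' K :=
      image_congr fun x hx => h63_h hb hle hiN ((hb _).gr.sub K hKN hx)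
    rw [himg, he]
    ext z
    constructor
    · rintro ⟨hz, x, hx, rfl⟩
      exact ⟨hz, x, mem_iUnion.2 ⟨_, hx⟩, h63_h hb hle hiN hx⟩
    · rintro ⟨hz, x, hx, rfl⟩
      have hxN : x ∈ (pn (max n a)).Y :=
        (h63_stay hb hle hiN hx).2 ((hb _).gr.sub K' hK' hz)
      exact ⟨hz, x, hxN, (h63_h hb hle hiN hxN).symm⟩
  pre := by
    rintro K ⟨n, hK⟩
    obtain ⟨a, ha⟩ := mem_iUnion.1 hi
    have hiN := h63_S_mono hb hle (le_max_right n a) ha
    have hKN := h63_R_mono hb hle (le_max_left n a) hK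
    have e : {x | x ∈ (h63Un pn).Y ∧ (h63Un pn).h i x ∈ K} =
        {x | x ∈ (pn (max n a)).Y ∧ (pn (max n a)).h i x ∈ K} := by
      ext x
      constructor
      · rintro ⟨hx, hxK⟩
        have hxN : x ∈ (pn (max n a)).Y :=
          (h63_stay hb hle hiN hx).2 ((hb _).gr.sub K hKN hxK)
        exact ⟨hxN, by rw [← h63_h hb hle hiN hxN]; exact hxK⟩
      · rintro ⟨hx, hxK⟩
        exact ⟨mem_iUnion.2 ⟨_, hx⟩, by rw [h63_h hb hle hiN hx]; exact hxK⟩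
    rw [e]
    exact ⟨_, ((hb (max n a)).ce i hiN).pre K hKN⟩
  closed := by
    refine ⟨?_, ?_⟩
    · rintro _ ⟨x, hx, rfl⟩
      obtain ⟨N, _, hiN, hxN⟩ := h63_late hb hle 0 hi hx
      exact mem_iUnion.2 ⟨N, h63_maps hb hle hiN hxN⟩
    · intro x hx hx'
      obtain ⟨N, _, hiN, hxN⟩ := h63_late hb hle 0 hi hx
      have h1 : x ∉ (pn N).h i '' (pn N).Y := by
        rintro ⟨z, hz, rfl⟩
        exact hx' ⟨z, mem_iUnion.2 ⟨N, hz⟩, h63_h hb hle hiN hz⟩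
      obtain ⟨K, hK, hxK, he⟩ := ((hb N).ce i hiN).closed.2 x hxN h1
      refine ⟨K, ⟨N, hK⟩, hxK, ?_⟩
      rw [eq_empty_iff_forall_notMem] at he ⊢
      rintro y ⟨hyK, z, hz, rfl⟩
      have hzN : z ∈ (pn N).Y := (h63_stay hb hle hiN hz).2 ((hb N).gr.sub K hK hyK)
      exact he _ ⟨hyK, z, hzN, (h63_h hb hle hiN hzN).symm⟩

theorem h63_basic : Basic α (h63Un pn) where
  cY := countable_iUnion fun n => (hb n).cY
  cS := countable_iUnion fun n => (hb n).cS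
  gr := h63_gr hb hle
  ra := by
    intro x
    by_cases h : ∃ n, x ∈ (pn n).Y
    · obtain ⟨n, hn⟩ := h
      rw [h63_r hb hle hn]
      exact (hb n).ra x
    · have e : (h63Un pn).r x = 0 := dif_neg h
      rw [e]
      exact lt_of_le_of_lt (zero_le) ((hb 0).ra x)
  r0 := by
    intro x hx
    refine dif_neg ?_
    rintro ⟨n, hn⟩
    exact hx (mem_iUnion.2 ⟨n, hn⟩)
  ce := fun i hi => h63_ce hb hle hi
  h0 := by
    intro i hi
    funext x
    refine dif_neg ?_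
    rintro ⟨n, hn, _⟩
    exact hi (mem_iUnion.2 ⟨n, hn⟩)
  h1 := by
    intro i _ x hx
    refine dif_neg ?_
    rintro ⟨n, _, hn⟩
    exact hx (mem_iUnion.2 ⟨n, hn⟩)

theorem h63_cp (n : ℕ) : Cp (pn n) (h63Un pn) where
  sub := fun x hx => mem_iUnion.2 ⟨n, hx⟩
  ring := by
    intro K
    constructor
    · intro hK
      exact ⟨⟨n, hK⟩, (hb n).gr.sub K hK⟩
    · rintro ⟨⟨m, hK⟩, hsub⟩
      exact ((Le.seq hb hle (le_max_left n m)).cp.ring K).2
        ⟨h63_R_mono hb hle (le_max_right n m) hK, hsub⟩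
  cut := by
    rintro K ⟨m, hK⟩
    exact ⟨max n m, (Le.seq hb hle (le_max_left n m)).cp.cut K
      (h63_R_mono hb hle (le_max_right n m) hK)⟩
  rk := fun x hx => h63_r hb hle hx

/-- paths of the new part lie in one of the conditions -/
theorem h63_path {n M : ℕ} (hnM : n ≤ M) {g : FreeGroup I} {x y : Ω}
    (h : Acts (New (pn n) (h63Un pn)) g x y) (hx : x ∈ (pn M).Y) :
    Acts (New (pn n) (pn M)) g x y := by
  refine (h63_transfer (A := (pn M).Y) (fun i a b hab => ?_) (fun i a b hab haM => ?_) h hx).1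
  · rw [hab.2.2.2]
    exact h63_stay hb hle (h63_S_mono hb hle hnM hab.1) hab.2.1
  · obtain ⟨hi, _, ha', hb'⟩ := hab
    exact ⟨hi, haM, ha', by rw [hb']; exact h63_h hb hle (h63_S_mono hb hle hnM hi) haM⟩

theorem h63_le (n : ℕ) : Le (h63Un pn) (pn n) where
  cp := h63_cp hb hle n
  S := fun i hi => mem_iUnion.2 ⟨n, hi⟩
  h := fun i hi x hx => h63_h hb hle hi hx
  out := fun i hi x hx hx' => h63_out hb hle hi hx hx'
  fr := by
    intro g x hg
    rcases h63_acts_mem (A := (h63Un pn).Y) (fun i a b hab => ⟨hab.2.1, by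
      rw [hab.2.2.2]
      exact (h63_ce hb hle (mem_iUnion.2 ⟨n, hab.1⟩)).maps a hab.2.1⟩) hg with ⟨_, h1⟩ | ⟨hx, _⟩
    · exact h1
    · obtain ⟨M, hM, hxM⟩ := h63_lateX hb hle n hx
      exact (Le.seq hb hle hM).fr g x (h63_path hb hle hM hg hxM)
  pr := by
    rintro K ⟨m, hK⟩
    refine ((Le.seq hb hle (le_max_left n m)).pr K
      (h63_R_mono hb hle (le_max_right n m) hK)).subset ?_
    rintro g ⟨x, hx, y, hy, hg⟩
    exact ⟨x, hx, y, hy, h63_path hb hle (le_max_left n m) hg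
      ((hb _).gr.sub K (h63_R_mono hb hle (le_max_right n m) hK) hx)⟩

end

/-- Decreasing sequences have unions. -/
theorem exists_isUn (hb : ∀ n, Basic α (pn n)) (hle : ∀ n, Le (pn (n + 1)) (pn n)) :
    ∃ q, Basic α q ∧ IsUn q pn :=
  ⟨h63Un pn, h63_basic hb hle, rfl, fun _ hK => hK, rfl, fun n => h63_le hb hle n⟩

/-- A union is below every lower bound... the members of the ring of the union. -/
theorem IsUn.ring (h : IsUn q pn) {K : Set Ω} : K ∈ q.R ↔ ∃ n, K ∈ (pn n).R :=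
  ⟨fun hK => h.R K hK, fun ⟨n, hn⟩ => ((h.le n).cp.ring K |>.1 hn).1⟩

end F2

end Pool.Agent.Helper33.QB
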